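import Pool.Agent.X291.MT.Lap
import Pool.Agent.X144.MT.Alpha

/-! The monotone triangle polynomial equals the determinant functional. -/

namespace Pool.Agent.X291.MT

open Finset Pool.Agent.X144.MT

theorem P_tel (g : ℤ → ℤ) (b : ℤ) :
    Pool.Agent.X144.MT.P (fun l => g (l + 1) - g l) b = g b - g 0 := by
  induction b using Int.induction_on with
  | zero => simp [Pool.Agent.X144.MT.P]
  | succ i ih => rw [P_succ, ih]; ring
  | pred i ih =>
    have h := P_succ (fun l => g (l + 1) - g l) (-(i : ℤ) - 1)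
    rw [show -(i : ℤ) - 1 + 1 = -i by ring, ih] at h
    linarith

theorem E_tel (g : ℤ → ℤ) (b c : ℤ) : E (fun l => g (l + 1) - g l) b c = g c - g b := by
  rw [E, P_tel, P_tel]; ring

/-- monomial of a list placed from position `p` on -/
noncomputable def Xs : ℕ → List ℤ → A
  | _, [] => 1
  | p, l :: s => xz p l * Xs (p + 1) s

/-- numerator of the extended sum -/
noncomputable def N : ℕ → ℤ → List ℤ → A
  | _, _, [] => 1
  | p, k, k2 :: r => (xz p k2 - xz p k) * N (p + 1) k2 r + (x p - 1) * xz p k2 * N (p + 1) (k2 + 1) r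

theorem N_cons (p : ℕ) (k k2 : ℤ) (r : List ℤ) :
    N p k (k2 :: r) = (xz p k2 - xz p k) * N (p + 1) k2 r
      + (x p - 1) * xz p k2 * N (p + 1) (k2 + 1) r := by
  rw [N]

theorem T_Lam' (r : List ℤ) : ∀ (n p : ℕ) (_ : n = p + r.length) (k : ℤ) (Q : A),
    T (fun s => Lam' n (Q * (∏ i ∈ Ico p n, (x i - 1)) * Xs p s)) k r = Lam' n (Q * N p k r) := by
  induction r with
  | nil =>
    intro n p hn k Q
    rw [T_nil]
    simp only [List.length_nil, add_zero] at hn
    subst hn
    simp [N, Xs]
  | cons k2 r ih =>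
    intro n p hn k Q
    have hn' : n = (p + 1) + r.length := by rw [hn, List.length_cons]; ring
    have hp : p < n := by omega
    rw [T_cons]
    have e : ∀ (l : ℤ) (s : List ℤ), Lam' n (Q * (∏ i ∈ Ico p n, (x i - 1)) * Xs p (l :: s)) =
        Lam' n ((Q * (x p - 1) * xz p l) * (∏ i ∈ Ico (p + 1) n, (x i - 1)) * Xs (p + 1) s) := by
      intro l s
      congr 1
      rw [Xs, Finset.prod_eq_prod_Ico_succ_bot hp]
      ring
    simp only [e]
    simp only [ih n (p + 1) hn']
    have e2 : ∀ l : ℤ, Lam' n (Q * (x p - 1) * xz p l * N (p + 1) k2 r) =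
        Lam' n (Q * N (p + 1) k2 r * xz p (l + 1)) - Lam' n (Q * N (p + 1) k2 r * xz p l) := by
      intro l
      rw [← map_sub]
      congr 1
      rw [xz_add, xz_one]; ring
    rw [E_congr e2, E_tel (fun l => Lam' n (Q * N (p + 1) k2 r * xz p l)), ← map_sub, ← map_add]
    congr 1
    rw [N_cons]
    ring

theorem sub_sw_xz {i p : ℕ} (h : i + 1 < p) (c : ℤ) : sub (sw i) (xz p c) = xz p c := by
  rw [xz, sub_X]
  congr 1
  funext j
  simp only [Function.comp, Pi.single_apply, sw_apply]
  split_ifs <;> first | rfl | omega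

theorem sub_sw_xz' {i p : ℕ} (h : p < i) (c : ℤ) : sub (sw i) (xz p c) = xz p c := by
  rw [xz, sub_X]
  congr 1
  funext j
  simp only [Function.comp, Pi.single_apply, sw_apply]
  split_ifs <;> first | rfl | omega

theorem sub_sw_pair (i : ℕ) (c : ℤ) : sub (sw i) (xz i c * xz (i + 1) c) = xz i c * xz (i + 1) c := by
  rw [xz, xz, X_mul, sub_X]
  congr 1
  funext j
  simp only [Function.comp, Pi.add_apply, Pi.single_apply, sw_apply]
  split_ifs <;> omega

theorem sub_sw_N (r : List ℤ) : ∀ (i q : ℕ) (_ : i + 1 < q) (k : ℤ),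
    sub (sw i) (N q k r) = N q k r := by
  induction r with
  | nil => intro i q _ k; simp [N]
  | cons k2 r ih =>
    intro i q hq k
    rw [N_cons]
    simp only [map_add, map_mul, map_sub, map_one, sub_sw_xz hq, ih i (q + 1) (by omega)]
    rw [sub_sw_x, sw_gt hq]

/-- the constant part of the numerator -/
noncomputable def U (p : ℕ) (k2 : ℤ) (r : List ℤ) : A :=
  xz p k2 * N (p + 1) k2 r + (x p - 1) * xz p k2 * N (p + 1) (k2 + 1) r

theorem N_U (p : ℕ) (k k2 : ℤ) (r : List ℤ) :
    N p k (k2 :: r) = -(xz p k * N (p + 1) k2 r) + U p k2 r := by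
  rw [N_cons, U]; ring

theorem U_cons (p : ℕ) (k2 k3 : ℤ) (r : List ℤ) :
    U p k2 (k3 :: r) = xz p (k2 + 1) * U (p + 1) k3 r
      - (xz p k2 * xz (p + 1) k2) * w (p + 1) p * N (p + 2) k3 r := by
  rw [U, N_U, N_U, xz_add p, xz_add (p + 1), xz_one, xz_one, w]
  ring

/-- `∏ X_{p+i}^{r_i+1}` -/
noncomputable def Z : ℕ → List ℤ → A
  | _, [] => 1
  | p, k :: r => xz p (k + 1) * Z (p + 1) r

theorem U_killed (r : List ℤ) : ∀ (n p : ℕ) (_ : n = p + 1 + r.length) (k2 : ℤ) (Q : A)
    (_ : ∀ i, p ≤ i → sub (sw i) Q = Q),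
    Lam' n (W n * Q * U p k2 r) = Lam' n (W n * Q * Z p (k2 :: r)) := by
  induction r with
  | nil =>
    intro n p hn k2 Q hQ
    congr 1
    simp only [U, N, Z, mul_one]
    rw [xz_add, xz_one]; ring
  | cons k3 r ih =>
    intro n p hn k2 Q hQ
    rw [List.length_cons] at hn
    have h1 := ih n (p + 1) (by omega) k3 (Q * xz p (k2 + 1)) (by
      intro i hi
      rw [map_mul, hQ i (by omega), sub_sw_xz' (by omega)])
    have h2 : Lam' n (W n * Q * ((xz p k2 * xz (p + 1) k2) * w (p + 1) p * N (p + 2) k3 r)) = 0 := by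
      apply Lam'_sym (i := p) (by omega)
      have e : W n * Q * ((xz p k2 * xz (p + 1) k2) * w (p + 1) p * N (p + 2) k3 r) =
          (W n * w (p + 1) p) * (Q * (xz p k2 * xz (p + 1) k2) * N (p + 2) k3 r) := by ring
      rw [e, map_mul, W_sym (by omega), map_mul, map_mul, hQ p le_rfl, sub_sw_pair,
        sub_sw_N _ _ _ (by omega)]
    rw [U_cons, mul_sub, map_sub, h2, sub_zero]
    have e3 : W n * Q * (xz p (k2 + 1) * U (p + 1) k3 r) =
        W n * (Q * xz p (k2 + 1)) * U (p + 1) k3 r := by ring
    rw [e3, h1]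
    congr 1
    simp only [Z]
    ring

/-- the reduced numerator -/
noncomputable def S : ℕ → ℤ → List ℤ → A
  | _, _, [] => 1
  | p, k, k2 :: r => -(xz p k * S (p + 1) k2 r) + Z p (k2 :: r)

theorem N_killed (r : List ℤ) : ∀ (n p : ℕ) (_ : n = p + r.length) (k : ℤ) (Q : A)
    (_ : ∀ i, p ≤ i → sub (sw i) Q = Q),
    Lam' n (W n * Q * N p k r) = Lam' n (W n * Q * S p k r) := by
  induction r with
  | nil =>
    intro n p hn k Q hQ
    simp [N, S]
  | cons k2 r ih =>
    intro n p hn k Q hQ
    rw [List.length_cons] at hn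
    have h1 := ih n (p + 1) (by omega) k2 (Q * xz p k) (by
      intro i hi
      rw [map_mul, hQ i (by omega), sub_sw_xz' (by omega)])
    have h2 := U_killed r n p (by omega) k2 Q hQ
    rw [N_U, S, mul_add, mul_add, map_add, map_add, h2]
    congr 1
    have e1 : W n * Q * -(xz p k * N (p + 1) k2 r) = -(W n * (Q * xz p k) * N (p + 1) k2 r) := by
      ring
    have e2 : W n * Q * -(xz p k * S (p + 1) k2 r) = -(W n * (Q * xz p k) * S (p + 1) k2 r) := by
      ring
    rw [e1, e2, map_neg, map_neg, h1]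

theorem Z_eq (r : List ℤ) : ∀ (p : ℕ) (e : ℕ → ℤ)
    (_ : ∀ i, i < r.length → r.getD i 0 = e (p + i + 1)),
    Z p r = ∏ i ∈ Ico p (p + r.length), xz i (e (i + 1) + 1) := by
  induction r with
  | nil => intro p e _; simp [Z]
  | cons k r ih =>
    intro p e h
    rw [Z, ih (p + 1) e (by
      intro i hi
      have := h (i + 1) (by simpa using hi)
      rw [List.getD_cons_succ] at this
      rw [this]; congr 1; ring)]
    have h0 := h 0 (by simp)
    rw [List.getD_cons_zero] at h0
    rw [List.length_cons,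
      Finset.prod_eq_prod_Ico_succ_bot (by omega : p < p + (r.length + 1)), h0]
    simp only [add_zero]
    rw [show p + 1 + r.length = p + (r.length + 1) by ring]

theorem S_eq (r : List ℤ) : ∀ (p : ℕ) (k : ℤ) (e : ℕ → ℤ)
    (_ : ∀ i, i < r.length + 1 → (k :: r).getD i 0 = e (p + i)),
    S p k r = ∑ j ∈ range (r.length + 1), (-1) ^ j * ((∏ i ∈ Ico p (p + j), xz i (e i)) *
      ∏ i ∈ Ico (p + j) (p + r.length), xz i (e (i + 1) + 1)) := by
  induction r with
  | nil => intro p k e _; simp [S]
  | cons k2 r ih =>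
    intro p k e h
    have h0 := h 0 (by simp)
    rw [List.getD_cons_zero, add_zero] at h0
    have hr : ∀ i, i < r.length + 1 → (k2 :: r).getD i 0 = e (p + 1 + i) := by
      intro i hi
      have := h (i + 1) (by simpa using hi)
      rw [List.getD_cons_succ] at this
      rw [this]; congr 1; ring
    rw [S, ih (p + 1) k2 e hr, List.length_cons, Finset.sum_range_succ' _ (r.length + 1),
      Z_eq (k2 :: r) p e (by
        intro i hi
        rw [hr i (by simpa using hi)]
        congr 1; ring)]
    rw [h0]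
    simp only [add_zero, Ico_self, prod_empty, pow_zero, one_mul, List.length_cons]
    congr 1
    rw [Finset.mul_sum, ← Finset.sum_neg_distrib]
    apply Finset.sum_congr rfl
    intro j hj
    rw [Finset.prod_eq_prod_Ico_succ_bot (by omega : p < p + (j + 1))]
    rw [show p + 1 + j = p + (j + 1) by ring, show p + 1 + r.length = p + (r.length + 1) by ring]
    ring

theorem X_prod (n : ℕ) : ∀ (f : ℕ → ℤ) (_ : ∀ i, n ≤ i → f i = 0),
    X f = ∏ i ∈ range n, xz i (f i) := by
  induction n with
  | zero =>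
    intro f hf
    rw [range_zero, prod_empty, ← X_zero]
    congr 1
    funext i
    exact hf i (Nat.zero_le _)
  | succ n ih =>
    intro f hf
    rw [Finset.prod_range_succ]
    have h := ih (fun i => if i < n then f i else 0) (by
      intro i hi
      simp [Nat.not_lt.2 hi])
    have h2 : ∏ i ∈ range n, xz i (if i < n then f i else 0) = ∏ i ∈ range n, xz i (f i) := by
      apply Finset.prod_congr rfl
      intro i hi
      rw [mem_range] at hi
      rw [if_pos hi]
    rw [← h2, ← h, xz, X_mul]
    congr 1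
    funext i
    simp only [Pi.add_apply, Pi.single_apply]
    by_cases h1 : i < n
    · have : i ≠ n := by omega
      simp [h1, this]
    · by_cases h2 : i = n
      · subst h2; simp
      · simp [h1, h2, hf i (by omega)]

theorem Xs_eq (s : List ℤ) : ∀ p, Xs p s = ∏ i ∈ range s.length, xz (p + i) (s.getD i 0) := by
  induction s with
  | nil => intro p; simp [Xs]
  | cons l s ih =>
    intro p
    rw [Xs, ih, List.length_cons, Finset.prod_range_succ']
    simp only [List.getD_cons_succ, List.getD_cons_zero, add_zero]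
    rw [mul_comm]
    congr 1
    apply Finset.prod_congr rfl
    intro i _
    congr 1
    ring

/-- a list as an exponent vector -/
def fn (l : List ℤ) : ℕ → ℤ := fun i => l.getD i 0

theorem X_fn (l : List ℤ) : X (fn l) = Xs 0 l := by
  rw [Xs_eq, X_prod l.length (fn l)]
  · simp [fn]
  · intro i hi
    exact List.getD_eq_default _ _ hi

theorem T_congr_len (r : List ℤ) : ∀ (F H : List ℤ → ℤ) (k : ℤ)
    (_ : ∀ s, s.length = r.length → F s = H s), T F k r = T H k r := by
  induction r with
  | nil => intro F H k h; rw [T_nil, T_nil]; exact h [] rfl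
  | cons k2 r ih =>
    intro F H k h
    rw [T_cons, T_cons]
    have h1 : ∀ l, T (fun s => F (l :: s)) k2 r = T (fun s => H (l :: s)) k2 r := by
      intro l
      apply ih
      intro s hs
      apply h
      simp [hs]
    rw [E_congr h1]
    congr 1
    apply ih
    intro s hs
    apply h
    simp [hs]

theorem a_rec (k : ℤ) (r : List ℤ) :
    T (fun s => a r.length (fn s)) k r = a (r.length + 1) (fn (k :: r)) := by
  set n := r.length with hn
  have h1 : ∀ s : List ℤ, a n (fn s) =
      Lam' n (W n * (∏ i ∈ Ico 0 n, (x i - 1)) * Xs 0 s) := by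
    intro s
    rw [a, ← Lam'_Lam, X_fn, Finset.range_eq_Ico]
    congr 1
    ring
  simp only [h1]
  rw [T_Lam' r n 0 (by omega) k (W n)]
  have h2 := N_killed r n 0 (by omega) k 1 (by intro i _; simp)
  rw [mul_one] at h2
  rw [h2, S_eq r 0 k (fn (k :: r)) (by intro i _; simp [fn]), a, Lam_laplace, Finset.mul_sum,
    map_sum]
  apply Finset.sum_congr rfl
  intro j hj
  rw [mem_range] at hj
  obtain ⟨m, hm⟩ : ∃ m, n = j + m := ⟨n - j, by omega⟩
  have h3 : sub (skip j) (X (fn (k :: r)) * W (n + 1)) =
      W n * ((∏ i ∈ Ico 0 (0 + j), xz i (fn (k :: r) i)) *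
      ∏ i ∈ Ico (0 + j) (0 + r.length), xz i (fn (k :: r) (i + 1) + 1)) := by
    rw [map_mul, hm, sub_skip_W, sub_X, X_prod n]
    · rw [Finset.range_eq_Ico, ← Finset.prod_Ico_consecutive _ (Nat.zero_le j) (by omega : j ≤ n)]
      have a1 : ∏ i ∈ Ico 0 j, xz i ((fn (k :: r) ∘ skip j) i) =
          ∏ i ∈ Ico 0 (0 + j), xz i (fn (k :: r) i) := by
        rw [zero_add]
        apply Finset.prod_congr rfl
        intro i hi
        rw [mem_Ico] at hi
        simp [skip, hi.2]
      have a2 : (∏ i ∈ Ico j n, xz i ((fn (k :: r) ∘ skip j) i)) * ∏ q ∈ Ico j (j + m), x q =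
          ∏ i ∈ Ico (0 + j) (0 + r.length), xz i (fn (k :: r) (i + 1) + 1) := by
        rw [zero_add, zero_add, ← hn, ← hm, ← Finset.prod_mul_distrib]
        apply Finset.prod_congr rfl
        intro i hi
        rw [mem_Ico] at hi
        have : ¬ i < j := by omega
        simp only [Function.comp, skip, this, if_false]
        rw [xz_add, xz_one]
      rw [a1, ← a2]
      ring
    · intro i hi
      have : ¬ i < j := by omega
      simp only [Function.comp, skip, this, if_false, fn]
      apply List.getD_eq_default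
      rw [List.length_cons]; omega
  rw [h3]
  have e4 : W n * ((-1) ^ j * ((∏ i ∈ Ico 0 (0 + j), xz i (fn (k :: r) i)) *
      ∏ i ∈ Ico (0 + j) (0 + r.length), xz i (fn (k :: r) (i + 1) + 1))) =
      ((-1) ^ j : ℤ) • (W n * ((∏ i ∈ Ico 0 (0 + j), xz i (fn (k :: r) i)) *
      ∏ i ∈ Ico (0 + j) (0 + r.length), xz i (fn (k :: r) (i + 1) + 1))) := by
    rw [zsmul_eq_mul]
    push_cast
    ring
  rw [e4, map_zsmul, smul_eq_mul]

theorem al_eq_a : ∀ (m : ℕ) (l : List ℤ), l.length = m → al m l = a m (fn l) := by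
  intro m
  induction m with
  | zero =>
    intro l hl
    rw [List.length_eq_zero_iff] at hl
    subst hl
    simp [al, a, W, Lam_X]
  | succ m ih =>
    intro l hl
    cases l with
    | nil => simp at hl
    | cons k r =>
      have hr : r.length = m := by simpa using hl
      change T (al m) k r = _
      rw [T_congr_len r (al m) (fun s => a m (fn s)) k (by
        intro s hs
        exact ih s (by rw [hs, hr]))]
      subst hr
      exact a_rec k r

end Pool.Agent.X291.MT
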