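import Pool.Agent.X291.MT.Lau

/-! Basic properties of the determinant functionals. -/

namespace Pool.Agent.X291.MT

open Finset

theorem Lam_perm (n : ℕ) (f : ℕ → ℕ) (σ : Equiv.Perm (Fin n)) (h : ∀ i : Fin n, f i = σ i)
    (P : A) : Lam n (sub f P) = (Equiv.Perm.sign σ : ℤ) * Lam n P := by
  have key : ∀ e, ((Lam n).comp (sub f).toAddMonoidHom) (X e)
      = ((Equiv.Perm.sign σ : ℤ) • Lam n) (X e) := by
    intro e
    change Lam n (sub f (X e)) = (Equiv.Perm.sign σ : ℤ) * Lam n (X e)
    rw [sub_X, Lam_X, Lam_X]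
    have := Matrix.det_permute σ (Matrix.of fun i j : Fin n => Ring.choose (e i) (j : ℕ))
    rw [Int.cast_id] at this
    rw [← this]
    congr 1
    ext i j
    simp [h]
  exact hom_ext key P

theorem Lam'_perm (n : ℕ) (f : ℕ → ℕ) (σ : Equiv.Perm (Fin n)) (h : ∀ i : Fin n, f i = σ i)
    (P : A) : Lam' n (sub f P) = (Equiv.Perm.sign σ : ℤ) * Lam' n P := by
  have key : ∀ e, ((Lam' n).comp (sub f).toAddMonoidHom) (X e)
      = ((Equiv.Perm.sign σ : ℤ) • Lam' n) (X e) := by
    intro e
    change Lam' n (sub f (X e)) = (Equiv.Perm.sign σ : ℤ) * Lam' n (X e)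
    rw [sub_X, Lam'_X, Lam'_X]
    have := Matrix.det_permute σ (Matrix.of fun i j : Fin n => Ring.choose (e i) ((j : ℕ) + 1))
    rw [Int.cast_id] at this
    rw [← this]
    congr 1
    ext i j
    simp [h]
  exact hom_ext key P

/-- swap of two consecutive indices -/
def sw (i : ℕ) : ℕ → ℕ := Equiv.swap i (i + 1)

theorem sw_apply (i p : ℕ) : sw i p = if p = i then i + 1 else if p = i + 1 then i else p := by
  simp [sw, Equiv.swap_apply_def]

theorem sw_fin {n i : ℕ} (hi : i + 1 < n) (p : Fin n) :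
    sw i p = ((Equiv.swap (⟨i, by omega⟩ : Fin n) ⟨i + 1, hi⟩) p : Fin n) := by
  rw [sw_apply, Equiv.swap_apply_def]
  simp only [Fin.ext_iff]
  split_ifs <;> rfl

theorem Lam_sw {n i : ℕ} (hi : i + 1 < n) (P : A) : Lam n (sub (sw i) P) = - Lam n P := by
  rw [Lam_perm n _ _ (sw_fin hi), Equiv.Perm.sign_swap (by simp [Fin.ext_iff])]
  simp

theorem Lam'_sw {n i : ℕ} (hi : i + 1 < n) (P : A) : Lam' n (sub (sw i) P) = - Lam' n P := by
  rw [Lam'_perm n _ _ (sw_fin hi), Equiv.Perm.sign_swap (by simp [Fin.ext_iff])]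
  simp

theorem Lam_sym {n i : ℕ} (hi : i + 1 < n) (P : A) (h : sub (sw i) P = P) : Lam n P = 0 := by
  have := Lam_sw hi P
  rw [h] at this
  omega

theorem Lam'_sym {n i : ℕ} (hi : i + 1 < n) (P : A) (h : sub (sw i) P = P) : Lam' n P = 0 := by
  have := Lam'_sw hi P
  rw [h] at this
  omega

/-- shifted binomial -/
def cc (a : ℤ) : ℕ → ℤ
  | 0 => 0
  | j + 1 => Ring.choose a j

theorem choose_succ' (a : ℤ) (j : ℕ) : Ring.choose (a + 1) j = Ring.choose a j + cc a j := by
  cases j with
  | zero => simp [cc]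
  | succ j => rw [Ring.choose_succ_succ, cc]; ring

theorem det_row_add {n : ℕ} (M1 M2 M3 : Matrix (Fin n) (Fin n) ℤ) (i : Fin n)
    (h : ∀ j, M1 i j = M2 i j + M3 i j) (h2 : ∀ i', i' ≠ i → M2 i' = M1 i')
    (h3 : ∀ i', i' ≠ i → M3 i' = M1 i') : M1.det = M2.det + M3.det := by
  have e1 : M1 = M1.updateRow i (M2 i + M3 i) := by
    ext a b
    by_cases hab : a = i
    · subst hab; simp [h]
    · simp [Matrix.updateRow_ne hab]
  have e2 : M1.updateRow i (M2 i) = M2 := by
    ext a b
    by_cases hab : a = i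
    · subst hab; simp
    · rw [Matrix.updateRow_ne hab, h2 a hab]
  have e3 : M1.updateRow i (M3 i) = M3 := by
    ext a b
    by_cases hab : a = i
    · subst hab; simp
    · rw [Matrix.updateRow_ne hab, h3 a hab]
  rw [e1, Matrix.det_updateRow_add, e2, e3]

theorem Lam_prod (n : ℕ) (S : Finset (Fin n)) (e : ℕ → ℤ) :
    Lam n (X e * ∏ i ∈ S, (x i - 1)) =
      Matrix.det (Matrix.of fun i j : Fin n => if i ∈ S then cc (e i) j else Ring.choose (e i) (j : ℕ)) := by
  classical
  induction S using Finset.induction_on generalizing e with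
  | empty => simp [Lam_X]
  | insert a S ha ih =>
    rw [Finset.prod_insert ha]
    have e1 : X e * ((x a - 1) * ∏ i ∈ S, (x i - 1)) =
        X (e + Pi.single (a : ℕ) 1) * ∏ i ∈ S, (x i - 1) - X e * ∏ i ∈ S, (x i - 1) := by
      rw [← X_mul]
      change _ = X e * x a * _ - _
      ring
    rw [e1, map_sub, ih, ih, sub_eq_iff_eq_add]
    apply det_row_add _ _ _ a
    · intro j
      simp only [Matrix.of_apply, ha, if_false, Finset.mem_insert_self, if_true]
      simp only [Pi.add_apply, Pi.single_eq_same]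
      rw [choose_succ']; ring
    · intro i' hi'
      ext j
      have : (i' : ℕ) ≠ a := fun h => hi' (Fin.ext h)
      simp [Finset.mem_insert, hi', this]
    · intro i' hi'
      ext j
      have : (i' : ℕ) ≠ a := fun h => hi' (Fin.ext h)
      simp [this]

theorem det_cols (n : ℕ) (e : ℕ → ℤ) (R : Finset (Fin n)) (hR : R.Nonempty) :
    Matrix.det (Matrix.of fun i j : Fin n => if j ∈ R then cc (e i) j else Ring.choose (e i) (j : ℕ)) = 0 := by
  classical
  set r := R.min' hR with hr
  have hrR : r ∈ R := Finset.min'_mem R hR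
  rcases Nat.eq_zero_or_pos (r : ℕ) with h0 | h0
  · apply Matrix.det_eq_zero_of_column_eq_zero r
    intro i
    simp only [Matrix.of_apply, hrR, if_true, h0]
    rfl
  · obtain ⟨m, hm⟩ : ∃ m, (r : ℕ) = m + 1 := ⟨r - 1, by omega⟩
    have hmn : m < n := by have := r.2; omega
    have hq : (⟨m, hmn⟩ : Fin n) ∉ R := by
      intro h
      have := Finset.min'_le R _ h
      rw [← hr] at this
      have : (r : ℕ) ≤ m := this
      omega
    apply Matrix.det_zero_of_column_eq (i := r) (j := ⟨m, hmn⟩)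
    · intro h
      have : (r : ℕ) = m := congrArg Fin.val h
      omega
    · intro i
      simp only [Matrix.of_apply, hrR, if_true, hq, if_false, hm]
      rfl

theorem sum_rows (n d : ℕ) (hd : 1 ≤ d) (e : ℕ → ℤ) :
    ∑ S ∈ powersetCard d (univ : Finset (Fin n)),
      Matrix.det (Matrix.of fun i j : Fin n => if i ∈ S then cc (e i) j else Ring.choose (e i) (j : ℕ)) = 0 := by
  classical
  have h1 : ∑ S ∈ powersetCard d (univ : Finset (Fin n)),
      Matrix.det (Matrix.of fun i j : Fin n => if i ∈ S then cc (e i) j else Ring.choose (e i) (j : ℕ)) =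
      ∑ R ∈ powersetCard d (univ : Finset (Fin n)),
      Matrix.det (Matrix.of fun i j : Fin n => if j ∈ R then cc (e i) j else Ring.choose (e i) (j : ℕ)) := by
    simp only [Matrix.det_apply]
    rw [Finset.sum_comm]
    conv_rhs => rw [Finset.sum_comm]
    apply Finset.sum_congr rfl
    intro σ _
    refine Finset.sum_nbij' (fun S => S.map σ.symm.toEmbedding) (fun S => S.map σ.toEmbedding)
      ?_ ?_ ?_ ?_ ?_
    · intro S hS; simpa [mem_powersetCard] using hS
    · intro S hS; simpa [mem_powersetCard] using hS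
    · intro S _; ext a; simp
    · intro S _; ext a; simp
    · intro S _
      congr 1
      apply Finset.prod_congr rfl
      intro i _
      have : (i ∈ S.map σ.symm.toEmbedding) ↔ σ i ∈ S := by
        simp [Finset.mem_map_equiv]
      simp only [Matrix.of_apply, this]
  rw [h1]
  apply Finset.sum_eq_zero
  intro R hR
  apply det_cols
  rw [mem_powersetCard] at hR
  rw [← Finset.card_pos]; omega

theorem Lam_e (n d : ℕ) (hd : 1 ≤ d) (P : A) :
    Lam n (P * ∑ S ∈ powersetCard d (univ : Finset (Fin n)), ∏ i ∈ S, (x i - 1)) = 0 := by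
  set Q : A := ∑ S ∈ powersetCard d (univ : Finset (Fin n)), ∏ i ∈ S, (x i - 1) with hQ
  have key : ∀ e, ((Lam n).comp (AddMonoidHom.mulRight Q)) (X e) = (0 : A →+ ℤ) (X e) := by
    intro e
    change Lam n (X e * Q) = 0
    rw [hQ, Finset.mul_sum, map_sum]
    simp only [Lam_prod]
    exact sum_rows n d hd e
  exact hom_ext key P

theorem Lam_ST (n : ℕ) (P S T : A) :
    Lam n (P * ∏ i : Fin n, (S + T * (x i - 1))) = Lam n (P * S ^ n) := by
  classical
  have h1 : ∏ i : Fin n, (S + T * (x i - 1)) =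
      ∑ d ∈ range (n + 1), T ^ d * S ^ (n - d) *
        ∑ R ∈ powersetCard d (univ : Finset (Fin n)), ∏ i ∈ R, (x i - 1) := by
    have : ∏ i : Fin n, (S + T * (x i - 1)) = ∏ i : Fin n, (T * (x i - 1) + S) := by
      apply Finset.prod_congr rfl; intros; ring
    rw [this, Finset.prod_add, Finset.sum_powerset, Finset.card_univ, Fintype.card_fin]
    apply Finset.sum_congr rfl
    intro d _
    rw [Finset.mul_sum]
    apply Finset.sum_congr rfl
    intro R hR
    rw [mem_powersetCard] at hR
    rw [Finset.prod_mul_distrib, Finset.prod_const, Finset.prod_const, hR.2,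
      Finset.card_sdiff_of_subset (Finset.subset_univ _), Finset.card_univ, Fintype.card_fin, hR.2]
    ring
  rw [h1, Finset.mul_sum, map_sum, Finset.sum_range_succ']
  rw [Finset.sum_eq_zero]
  · simp
  · intro d _
    rw [← mul_assoc]
    exact Lam_e n (d + 1) (by omega) _

end Pool.Agent.X291.MT
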