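import Pool.Agent.X291.MT.Rot

/-! Laplace expansion and the relation between `Λ` and `Λ'`. -/

namespace Pool.Agent.X291.MT

open Finset

theorem Lam'_prod (n : ℕ) (S : Finset (Fin n)) (e : ℕ → ℤ) :
    Lam' n (X e * ∏ i ∈ S, (x i - 1)) =
      Matrix.det (Matrix.of fun i j : Fin n => if i ∈ S then Ring.choose (e i) (j : ℕ)
        else Ring.choose (e i) ((j : ℕ) + 1)) := by
  classical
  induction S using Finset.induction_on generalizing e with
  | empty => simp [Lam'_X]
  | insert a S ha ih =>
    rw [Finset.prod_insert ha]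
    have e1 : X e * ((x a - 1) * ∏ i ∈ S, (x i - 1)) =
        X (e + Pi.single (a : ℕ) 1) * ∏ i ∈ S, (x i - 1) - X e * ∏ i ∈ S, (x i - 1) := by
      rw [← X_mul]
      change _ = X e * x a * _ - _
      ring
    rw [e1, map_sub, ih, ih, sub_eq_iff_eq_add]
    apply det_row_add _ _ _ a
    · intro j
      simp only [Matrix.of_apply, ha, if_false, Finset.mem_insert_self, if_true]
      simp only [Pi.add_apply, Pi.single_eq_same]
      rw [Ring.choose_succ_succ]
    · intro i' hi'
      ext j
      have : (i' : ℕ) ≠ a := fun h => hi' (Fin.ext h)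
      simp [Finset.mem_insert, hi', this]
    · intro i' hi'
      ext j
      have : (i' : ℕ) ≠ a := fun h => hi' (Fin.ext h)
      simp [this]

theorem Lam'_Lam (n : ℕ) (P : A) : Lam' n (P * ∏ i ∈ range n, (x i - 1)) = Lam n P := by
  have key : ∀ e, ((Lam' n).comp (AddMonoidHom.mulRight (∏ i ∈ range n, (x i - 1)))) (X e)
      = (Lam n) (X e) := by
    intro e
    change Lam' n (X e * (∏ i ∈ range n, (x i - 1))) = Lam n (X e)
    rw [prod_fin, Lam'_prod, Lam_X]
    simp
  exact hom_ext key P

/-- `i ↦ i` below `j`, `i ↦ i + 1` from `j` on. -/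
def skip (j : ℕ) : ℕ → ℕ := fun i => if i < j then i else i + 1

theorem Lam_laplace (n : ℕ) (P : A) :
    Lam (n + 1) P = ∑ j ∈ range (n + 1), (-1) ^ j * Lam' n (sub (skip j) P) := by
  have key : ∀ e, (Lam (n + 1)) (X e) =
      (∑ j ∈ range (n + 1), ((-1) ^ j : ℤ) • ((Lam' n).comp (sub (skip j)).toAddMonoidHom)) (X e) := by
    intro e
    rw [AddMonoidHom.finsetSum_apply]
    change _ = ∑ j ∈ range (n + 1), (-1) ^ j * Lam' n (sub (skip j) (X e))
    rw [Lam_X, Matrix.det_succ_column_zero, Finset.sum_range]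
    apply Finset.sum_congr rfl
    intro j _
    rw [sub_X, Lam'_X]
    simp only [Matrix.of_apply, Fin.val_zero, Ring.choose_zero_right, mul_one]
    congr 2
    ext a b
    simp only [Matrix.submatrix_apply, Matrix.of_apply, Fin.val_succ, Function.comp]
    congr 2
    rw [Fin.succAbove]
    simp only [skip, Fin.lt_def, Fin.val_castSucc]
    split_ifs <;> simp
  have h := hom_ext key P
  rw [h, AddMonoidHom.finsetSum_apply]
  rfl

theorem sub_skip_lt {j p : ℕ} (h : p < j) : sub (skip j) (x p) = x p := by
  apply sub_x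
  intro i
  simp only [skip]
  split_ifs <;> omega

theorem sub_skip_eq (j : ℕ) : sub (skip j) (x j) = 1 := by
  apply sub_x_one
  intro i
  simp only [skip]
  split_ifs <;> omega

theorem sub_skip_gt {j p : ℕ} (h : j ≤ p) : sub (skip j) (x (p + 1)) = x p := by
  apply sub_x
  intro i
  simp only [skip]
  split_ifs <;> omega

theorem sub_skip_W_low (j m : ℕ) (h : m ≤ j) : sub (skip j) (W m) = W m := by
  rw [W, map_prod]
  apply Finset.prod_congr rfl
  intro q hq
  rw [mem_range] at hq
  rw [map_prod]
  apply Finset.prod_congr rfl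
  intro p hp
  rw [mem_range] at hp
  rw [sub_w, sub_skip_lt (by omega), sub_skip_lt (by omega), w]

theorem sub_skip_W (j m : ℕ) : sub (skip j) (W (j + m + 1)) = W (j + m) * ∏ q ∈ Ico j (j + m), x q := by
  induction m with
  | zero =>
    rw [add_zero, W_succ, map_mul, sub_skip_W_low j j le_rfl, map_prod]
    simp only [Ico_self, prod_empty, mul_one]
    rw [Finset.prod_eq_one, mul_one]
    intro p hp
    rw [mem_range] at hp
    rw [sub_w, sub_skip_lt hp, sub_skip_eq]
    ring
  | succ m ih =>
    rw [show j + (m + 1) + 1 = (j + m + 1) + 1 by ring, W_succ, map_mul, ih, map_prod,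
      show j + (m + 1) = (j + m) + 1 by ring, W_succ,
      Finset.prod_Ico_succ_top (by omega)]
    have h1 : ∏ p ∈ range (j + m + 1), sub (skip j) (w p (j + m + 1)) =
        (∏ p ∈ range (j + m), w p (j + m)) * x (j + m) := by
      have e1 : range (j + m + 1) = Ico 0 (j + m + 1) := by rw [Finset.range_eq_Ico]
      rw [e1, ← Finset.prod_Ico_consecutive _ (Nat.zero_le j) (by omega : j ≤ j + m + 1),
        Finset.prod_eq_prod_Ico_succ_bot (by omega : j < j + m + 1)]
      have e2 : range (j + m) = Ico 0 (j + m) := by rw [Finset.range_eq_Ico]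
      rw [e2, ← Finset.prod_Ico_consecutive _ (Nat.zero_le j) (by omega : j ≤ j + m)]
      have a1 : ∏ p ∈ Ico 0 j, sub (skip j) (w p (j + m + 1)) = ∏ p ∈ Ico 0 j, w p (j + m) := by
        apply Finset.prod_congr rfl
        intro p hp
        rw [mem_Ico] at hp
        rw [sub_w, sub_skip_lt hp.2, sub_skip_gt (by omega), w]
      have a2 : sub (skip j) (w j (j + m + 1)) = x (j + m) := by
        rw [sub_w, sub_skip_eq, sub_skip_gt (by omega)]; ring
      have a3 : ∏ p ∈ Ico (j + 1) (j + m + 1), sub (skip j) (w p (j + m + 1)) =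
          ∏ p ∈ Ico j (j + m), w p (j + m) := by
        rw [Finset.prod_Ico_eq_prod_range, Finset.prod_Ico_eq_prod_range]
        have : j + m + 1 - (j + 1) = j + m - j := by omega
        rw [this]
        apply Finset.prod_congr rfl
        intro p hp
        rw [sub_w, show j + 1 + p = (j + p) + 1 by ring, sub_skip_gt (by omega),
          sub_skip_gt (by omega), w]
      rw [a1, a2, a3]
      ring
    rw [h1]
    ring

end Pool.Agent.X291.MT
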