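import Mathlib

/-! Laurent polynomials in `X_0, X_1, …` and the determinant functionals. -/

namespace Pool.Agent.X291.MT

open Finset

/-- Laurent polynomials with integer coefficients; exponent vectors are functions `ℕ → ℤ`. -/
abbrev A := AddMonoidAlgebra ℤ (ℕ → ℤ)

/-- The monomial with exponent vector `e`. -/
noncomputable def X (e : ℕ → ℤ) : A := AddMonoidAlgebra.single e 1

theorem X_mul (e f : ℕ → ℤ) : X e * X f = X (e + f) := by
  simp [X, AddMonoidAlgebra.single_mul_single]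

theorem X_zero : X 0 = 1 := rfl

/-- The variable `X_p`. -/
noncomputable def x (p : ℕ) : A := X (Pi.single p 1)

/-- The variable `X_p` to an integer power. -/
noncomputable def xz (p : ℕ) (a : ℤ) : A := X (Pi.single p a)

theorem xz_add (p : ℕ) (a b : ℤ) : xz p (a + b) = xz p a * xz p b := by
  simp [xz, X_mul, Pi.single_add]

theorem xz_zero (p : ℕ) : xz p 0 = 1 := by simp [xz, X_zero]

theorem xz_one (p : ℕ) : xz p 1 = x p := rfl

theorem xz_nat (p : ℕ) (a : ℕ) : xz p (a : ℤ) = x p ^ a := by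
  induction a with
  | zero => simp [xz_zero]
  | succ a ih => rw [Nat.cast_succ, xz_add, ih, xz_one, pow_succ]

theorem A_ind {p : A → Prop} (h1 : ∀ e, p (X e)) (h0 : p 0)
    (hadd : ∀ P Q, p P → p Q → p (P + Q)) (hsmul : ∀ (c : ℤ) P, p P → p (c • P)) (P : A) :
    p P := by
  refine AddMonoidAlgebra.induction_linear P h0 (fun _ _ h h' => hadd _ _ h h') ?_
  intro e c
  have : (AddMonoidAlgebra.single e c : A) = c • X e := by
    simp [X, AddMonoidAlgebra.smul_single]
  rw [this]
  exact hsmul c _ (h1 e)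

/-- The additive functional with prescribed values on monomials. -/
noncomputable def lin (f : (ℕ → ℤ) → ℤ) : A →+ ℤ where
  toFun P := P.coeff.sum fun e c => c * f e
  map_zero' := by simp
  map_add' P Q := by
    rw [AddMonoidAlgebra.coeff_add, Finsupp.sum_add_index'] <;> intros <;> ring

theorem lin_X (f : (ℕ → ℤ) → ℤ) (e : ℕ → ℤ) : lin f (X e) = f e := by
  change (AddMonoidAlgebra.coeff (AddMonoidAlgebra.single e (1 : ℤ))).sum
    (fun e c => c * f e) = f e
  simp

theorem hom_ext {F G : A →+ ℤ} (h : ∀ e, F (X e) = G (X e)) (P : A) : F P = G P := by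
  refine A_ind (p := fun P => F P = G P) h (by simp) ?_ ?_ P
  · intro P Q h1 h2; rw [map_add, map_add, h1, h2]
  · intro c P h1; rw [map_zsmul, map_zsmul, h1]

/-- Substitution: `X^e ↦ X^{e∘f}`. -/
noncomputable def sub (f : ℕ → ℕ) : A →+* A :=
  AddMonoidAlgebra.mapDomainRingHom ℤ
    ({ toFun := fun e => e ∘ f, map_zero' := rfl, map_add' := fun _ _ => rfl } :
      (ℕ → ℤ) →+ (ℕ → ℤ))

theorem sub_X (f : ℕ → ℕ) (e : ℕ → ℤ) : sub f (X e) = X (e ∘ f) := by
  simp [sub, X]

/-- `Λ`. -/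
noncomputable def Lam (n : ℕ) : A →+ ℤ :=
  lin fun e => Matrix.det (Matrix.of fun i j : Fin n => Ring.choose (e i) (j : ℕ))

/-- `Λ'`. -/
noncomputable def Lam' (n : ℕ) : A →+ ℤ :=
  lin fun e => Matrix.det (Matrix.of fun i j : Fin n => Ring.choose (e i) ((j : ℕ) + 1))

theorem Lam_X (n : ℕ) (e : ℕ → ℤ) :
    Lam n (X e) = Matrix.det (Matrix.of fun i j : Fin n => Ring.choose (e i) (j : ℕ)) := lin_X _ _

theorem Lam'_X (n : ℕ) (e : ℕ → ℤ) :
    Lam' n (X e) = Matrix.det (Matrix.of fun i j : Fin n => Ring.choose (e i) ((j : ℕ) + 1)) := lin_X _ _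

end Pool.Agent.X291.MT
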