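import Mathlib

/-! The rational function of `n` made of the refined ratios. -/

namespace Pool.Agent.X291.MT

open Finset Polynomial

/-- numerator factor -/
noncomputable def Uf (i : ℕ) : ℚ[X] := (X - C ((i : ℚ) + 1)) * (X + C (i : ℚ))

/-- denominator factor -/
noncomputable def Vf (i : ℕ) : ℚ[X] := C ((i : ℚ) + 1) * (C 2 * X - C ((i : ℚ) + 2))

theorem Uf_monic (i : ℕ) : (Uf i).Monic := by
  unfold Uf
  exact (monic_X_sub_C _).mul (monic_X_add_C _)

theorem Uf_deg (i : ℕ) : (Uf i).natDegree = 2 := by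
  unfold Uf
  rw [(monic_X_sub_C _).natDegree_mul (monic_X_add_C _), natDegree_X_sub_C, natDegree_X_add_C]

theorem Vf_deg (i : ℕ) : (Vf i).natDegree = 1 := by
  have h : Vf i = C (((i : ℚ) + 1) * 2) * X + C (-(((i : ℚ) + 1) * ((i : ℚ) + 2))) := by
    unfold Vf
    simp only [C_mul, C_neg, C_add]
    ring
  rw [h]
  apply natDegree_linear
  positivity

theorem Vf_ne (i : ℕ) : Vf i ≠ 0 := by
  intro h
  have := Vf_deg i
  rw [h] at this
  simp at this

/-- the `m`-th term -/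
noncomputable def Pf (K m : ℕ) : ℚ[X] := (∏ i ∈ range m, Uf i) * ∏ i ∈ Ico m K, Vf i

theorem prodV_ne (s : Finset ℕ) : ∏ i ∈ s, Vf i ≠ 0 := prod_ne_zero_iff.2 fun i _ => Vf_ne i

theorem prodV_deg (s : Finset ℕ) : (∏ i ∈ s, Vf i).natDegree = s.card := by
  rw [natDegree_prod _ _ (fun i _ => Vf_ne i)]
  simp [Vf_deg]

theorem prodU_deg (s : Finset ℕ) : (∏ i ∈ s, Uf i).natDegree = 2 * s.card := by
  rw [natDegree_prod _ _ (fun i _ => (Uf_monic i).ne_zero)]
  simp [Uf_deg, mul_comm]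

theorem Pf_deg (K m : ℕ) (h : m ≤ K) : (Pf K m).natDegree = K + m := by
  unfold Pf
  rw [natDegree_mul (prod_ne_zero_iff.2 fun i _ => (Uf_monic i).ne_zero) (prodV_ne _), prodU_deg,
    prodV_deg]
  simp
  omega

theorem rec_step (N m : ℕ) (hm : m < N) (B c c' : ℚ)
    (h1 : c * ((2 * N).choose N : ℚ) = B * ((N + m).choose N : ℚ) * ((2 * N - m).choose N : ℚ))
    (h2 : c' * ((2 * N).choose N : ℚ)
      = B * ((N + (m + 1)).choose N : ℚ) * ((2 * N - (m + 1)).choose N : ℚ)) :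
    c' * (((m : ℚ) + 1) * (2 * N - m)) = c * (((N : ℚ) - m) * (N + 1 + m)) := by
  have hD : ((2 * N).choose N : ℚ) ≠ 0 := by
    have : 0 < (2 * N).choose N := Nat.choose_pos (by omega)
    positivity
  have e1 : ((N + m).choose N : ℚ) * ((N : ℚ) + m + 1) = ((N + (m + 1)).choose N : ℚ) * (m + 1) := by
    have := Nat.choose_mul_succ_eq (N + m) N
    rw [show N + m + 1 - N = m + 1 by omega] at this
    exact_mod_cast this
  have e2 : ((2 * N - (m + 1)).choose N : ℚ) * (2 * (N : ℚ) - m)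
      = ((2 * N - m).choose N : ℚ) * ((N : ℚ) - m) := by
    have := Nat.choose_mul_succ_eq (2 * N - (m + 1)) N
    rw [show 2 * N - (m + 1) + 1 = 2 * N - m by omega] at this
    have h3 : ((2 * N - m : ℕ) : ℚ) = 2 * (N : ℚ) - m := by
      rw [Nat.cast_sub (by omega)]; push_cast; ring
    have h4 : ((2 * N - m - N : ℕ) : ℚ) = (N : ℚ) - m := by
      rw [show 2 * N - m - N = N - m by omega, Nat.cast_sub (by omega)]
    have h5 : (((2 * N - (m + 1)).choose N * (2 * N - m) : ℕ) : ℚ)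
        = (((2 * N - m).choose N * (2 * N - m - N) : ℕ) : ℚ) := by rw [this]
    rw [Nat.cast_mul, Nat.cast_mul, h3, h4] at h5
    exact h5
  apply mul_right_cancel₀ hD
  calc c' * (((m : ℚ) + 1) * (2 * N - m)) * ((2 * N).choose N : ℚ)
      = (c' * ((2 * N).choose N : ℚ)) * (((m : ℚ) + 1) * (2 * N - m)) := by ring
    _ = B * (((N + (m + 1)).choose N : ℚ) * (m + 1))
        * (((2 * N - (m + 1)).choose N : ℚ) * (2 * (N : ℚ) - m)) := by rw [h2]; ring
    _ = (B * ((N + m).choose N : ℚ) * ((2 * N - m).choose N : ℚ))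
        * (((N : ℚ) - m) * (N + 1 + m)) := by rw [← e1, e2]; ring
    _ = c * (((N : ℚ) - m) * (N + 1 + m)) * ((2 * N).choose N : ℚ) := by rw [← h1]; ring

theorem pack (k : ℕ) (hk : 4 ≤ k) : ∃ p q : ℚ[X], p ≠ 0 ∧ q ≠ 0 ∧
    (p.natDegree : ℤ) - q.natDegree = k - 3 ∧ ∀ n : ℕ, k ≤ n → q.eval (n : ℚ) ≠ 0 ∧
      ∀ (B : ℚ) (c : ℕ → ℚ), (∀ m, m + 3 ≤ k → c m * ((2 * (n - 1)).choose (n - 1) : ℚ)
        = B * ((n - 1 + m).choose (n - 1) : ℚ) * ((2 * (n - 1) - m).choose (n - 1) : ℚ)) →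
      ∑ m ∈ range (k - 2), ((k : ℚ) - 2 - m) * c m = p.eval (n : ℚ) / q.eval (n : ℚ) * B := by
  obtain ⟨K, rfl⟩ : ∃ K, k = K + 3 := ⟨k - 3, by omega⟩
  have hK : 1 ≤ K := by omega
  set q : ℚ[X] := ∏ i ∈ range K, Vf i with hq
  set p : ℚ[X] := ∑ m ∈ range (K + 1), C ((K : ℚ) + 1 - m) * Pf K m with hp
  have hpdeg : p.natDegree = 2 * K := by
    rw [hp, Finset.sum_range_succ]
    have h1 : (∑ m ∈ range K, C ((K : ℚ) + 1 - m) * Pf K m).natDegree ≤ 2 * K - 1 := by
      apply natDegree_sum_le_of_forall_le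
      intro m hm
      rw [mem_range] at hm
      refine (natDegree_C_mul_le _ _).trans ?_
      rw [Pf_deg K m (by omega)]; omega
    have h2 : (C ((K : ℚ) + 1 - K) * Pf K K).natDegree = 2 * K := by
      rw [show (K : ℚ) + 1 - K = 1 by ring, C_1, one_mul, Pf_deg K K le_rfl]; ring
    rw [natDegree_add_eq_right_of_natDegree_lt (by rw [h2]; omega), h2]
  have hqdeg : q.natDegree = K := by rw [hq, prodV_deg, card_range]
  have hp0 : p ≠ 0 := by
    intro h
    rw [h, natDegree_zero] at hpdeg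
    omega
  refine ⟨p, q, hp0, prodV_ne _, ?_, ?_⟩
  · rw [hpdeg, hqdeg]; push_cast; ring
  intro n hn
  have hVn : ∀ i, i < K → (Vf i).eval (n : ℚ) ≠ 0 := by
    intro i hi
    simp only [Vf, eval_mul, eval_C, eval_sub, eval_X]
    have h1 : (i : ℚ) + 1 ≠ 0 := by positivity
    have h2 : (2 * (n : ℚ) - ((i : ℚ) + 2)) ≠ 0 := by
      have h3 : ((i : ℚ) + 3) ≤ 2 * n := by
        have : i + 3 ≤ 2 * n := by omega
        exact_mod_cast this
      intro h4
      linarith
    exact mul_ne_zero h1 h2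
  have hqn : q.eval (n : ℚ) ≠ 0 := by
    rw [hq, eval_prod]
    exact prod_ne_zero_iff.2 fun i hi => hVn i (mem_range.1 hi)
  refine ⟨hqn, ?_⟩
  intro B c hc
  have hrec : ∀ m, m ≤ K → c m * ∏ i ∈ range m, (Vf i).eval (n : ℚ)
      = B * ∏ i ∈ range m, (Uf i).eval (n : ℚ) := by
    intro m
    induction m with
    | zero =>
      intro _
      have h := hc 0 (by omega)
      rw [add_zero, Nat.choose_self, Nat.sub_zero] at h
      have hD : ((2 * (n - 1)).choose (n - 1) : ℚ) ≠ 0 := by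
        have : 0 < (2 * (n - 1)).choose (n - 1) := Nat.choose_pos (by omega)
        positivity
      rw [Nat.cast_one, mul_one] at h
      simpa using mul_right_cancel₀ hD h
    | succ m ih =>
      intro hm
      have h1 := ih (by omega)
      have h2 := rec_step (n - 1) m (by omega) B (c m) (c (m + 1)) (hc m (by omega))
        (hc (m + 1) (by omega))
      rw [Nat.cast_sub (by omega), Nat.cast_one] at h2
      rw [prod_range_succ, prod_range_succ]
      have e1 : (Vf m).eval (n : ℚ) = ((m : ℚ) + 1) * (2 * ((n : ℚ) - 1) - m) := by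
        simp only [Vf, eval_mul, eval_C, eval_sub, eval_X]; ring
      have e2 : (Uf m).eval (n : ℚ) = ((n : ℚ) - 1 - m) * ((n : ℚ) - 1 + 1 + m) := by
        simp only [Uf, eval_mul, eval_C, eval_sub, eval_X, eval_add]; ring
      rw [e1, e2]
      calc c (m + 1) * ((∏ i ∈ range m, (Vf i).eval (n : ℚ))
            * (((m : ℚ) + 1) * (2 * ((n : ℚ) - 1) - m)))
          = (c (m + 1) * (((m : ℚ) + 1) * (2 * ((n : ℚ) - 1) - m)))
            * ∏ i ∈ range m, (Vf i).eval (n : ℚ) := by ring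
        _ = (c m * ∏ i ∈ range m, (Vf i).eval (n : ℚ))
            * (((n : ℚ) - 1 - m) * ((n : ℚ) - 1 + 1 + m)) := by rw [h2]; ring
        _ = _ := by rw [h1]; ring
  have hterm : ∀ m, m < K + 1 → c m = B * (Pf K m).eval (n : ℚ) / q.eval (n : ℚ) := by
    intro m hm
    have h1 := hrec m (by omega)
    rw [eq_div_iff hqn, Pf, hq, eval_mul, eval_prod, eval_prod, eval_prod]
    have e1 : ∏ i ∈ range K, (Vf i).eval (n : ℚ)
        = (∏ i ∈ range m, (Vf i).eval (n : ℚ)) * ∏ i ∈ Ico m K, (Vf i).eval (n : ℚ) := by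
      rw [Finset.range_eq_Ico, Finset.range_eq_Ico,
        Finset.prod_Ico_consecutive _ (Nat.zero_le m) (by omega)]
    rw [e1, ← mul_assoc, h1]
    ring
  rw [show K + 3 - 2 = K + 1 by omega, hp, eval_finsetSum, Finset.sum_div, Finset.sum_mul]
  apply Finset.sum_congr rfl
  intro m hm
  rw [mem_range] at hm
  rw [hterm m hm, eval_mul, eval_C]
  push_cast
  ring

end Pool.Agent.X291.MT
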