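import Pool.Agent.X291.MT.Det

/-! The weight product, its symmetry, and the rotation property. -/

namespace Pool.Agent.X291.MT

open Finset

/-- `1 - X_p + X_p X_q` -/
noncomputable def w (p q : ℕ) : A := 1 - x p + x p * x q

/-- `∏_{p<q<n} w(X_p,X_q)` -/
noncomputable def W (n : ℕ) : A := ∏ q ∈ range n, ∏ p ∈ range q, w p q

theorem W_succ (n : ℕ) : W (n + 1) = W n * ∏ p ∈ range n, w p n := by
  rw [W, Finset.prod_range_succ]; rfl

theorem sub_x {f : ℕ → ℕ} {p q : ℕ} (h : ∀ j, f j = p ↔ j = q) : sub f (x p) = x q := by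
  rw [x, sub_X, x]
  congr 1
  funext j
  simp only [Function.comp, Pi.single_apply, h]

theorem sub_x_one {f : ℕ → ℕ} {p : ℕ} (h : ∀ j, f j ≠ p) : sub f (x p) = 1 := by
  rw [x, sub_X, ← X_zero]
  congr 1
  funext j
  simp only [Function.comp, Pi.single_apply, h, if_false, Pi.zero_apply]

theorem sub_w (f : ℕ → ℕ) (p q : ℕ) :
    sub f (w p q) = 1 - sub f (x p) + sub f (x p) * sub f (x q) := by
  simp [w]

theorem sub_sw_x (i p : ℕ) : sub (sw i) (x p) = x (sw i p) := by
  apply sub_x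
  intro j
  rw [sw_apply, sw_apply]
  split_ifs <;> omega

theorem sub_sw_w (i p q : ℕ) : sub (sw i) (w p q) = w (sw i p) (sw i q) := by
  rw [sub_w, sub_sw_x, sub_sw_x]; rfl

theorem sw_lt {i p : ℕ} (h : p < i) : sw i p = p := by
  rw [sw_apply]; split_ifs <;> omega

theorem sw_gt {i p : ℕ} (h : i + 1 < p) : sw i p = p := by
  rw [sw_apply]; split_ifs <;> omega

theorem sw_l (i : ℕ) : sw i i = i + 1 := by rw [sw_apply]; simp

theorem sw_r (i : ℕ) : sw i (i + 1) = i := by rw [sw_apply]; simp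

theorem sub_sw_W_low (i : ℕ) : sub (sw i) (W i) = W i := by
  rw [W, map_prod]
  apply Finset.prod_congr rfl
  intro q hq
  rw [mem_range] at hq
  rw [map_prod]
  apply Finset.prod_congr rfl
  intro p hp
  rw [mem_range] at hp
  rw [sub_sw_w, sw_lt (by omega), sw_lt hq]

theorem W_sym {n i : ℕ} (hi : i + 1 < n) :
    sub (sw i) (W n * w (i + 1) i) = W n * w (i + 1) i := by
  induction n, hi using Nat.le_induction with
  | base =>
    rw [Nat.succ_eq_add_one, W_succ, W_succ, Finset.prod_range_succ]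
    simp only [map_mul, map_prod, sub_sw_w, sub_sw_W_low, sw_l, sw_r]
    have h1 : ∏ p ∈ range i, w (sw i p) (i + 1) = ∏ p ∈ range i, w p (i + 1) := by
      apply Finset.prod_congr rfl
      intro p hp
      rw [sw_lt (mem_range.1 hp)]
    have h2 : ∏ p ∈ range i, w (sw i p) i = ∏ p ∈ range i, w p i := by
      apply Finset.prod_congr rfl
      intro p hp
      rw [sw_lt (mem_range.1 hp)]
    rw [h1, h2]
    ring
  | succ n hn ih =>
    have e : W (n + 1) * w (i + 1) i = (W n * w (i + 1) i) * ∏ p ∈ range n, w p n := by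
      rw [W_succ]; ring
    rw [e, map_mul, ih]
    congr 1
    rw [map_prod]
    have hn' : i + 1 < n := hn
    refine Finset.prod_nbij' (sw i) (sw i) ?_ ?_ ?_ ?_ ?_
    · intro p hp; rw [mem_range] at *; rw [sw_apply]; split_ifs <;> omega
    · intro p hp; rw [mem_range] at *; rw [sw_apply]; split_ifs <;> omega
    · intro p _; rw [sw_apply, sw_apply]; split_ifs <;> omega
    · intro p _; rw [sw_apply, sw_apply]; split_ifs <;> omega
    · intro p _
      rw [sub_sw_w, sw_gt hn']

/-- The polynomial `α(n;k)` as a functional. -/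
noncomputable def a (n : ℕ) (k : ℕ → ℤ) : ℤ := Lam n (X k * W n)

/-- `∏_{1≤p<q<n} w(X_p,X_q)` -/
noncomputable def W1 (n : ℕ) : A := ∏ q ∈ range n, ∏ p ∈ Ico 1 q, w p q

theorem W_W1 (m : ℕ) : W (m + 1) * w 0 0 = W1 (m + 1) * ∏ q ∈ range (m + 1), w 0 q := by
  induction m with
  | zero => simp [W, W1]
  | succ m ih =>
    have e1 : W (m + 1 + 1) * w 0 0 = (W (m + 1) * w 0 0) * ∏ p ∈ range (m + 1), w p (m + 1) := by
      rw [W_succ (m + 1)]; ring
    have e2 : W1 (m + 1 + 1) = W1 (m + 1) * ∏ p ∈ Ico 1 (m + 1), w p (m + 1) := by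
      rw [W1, Finset.prod_range_succ]; rfl
    have e3 : ∏ p ∈ range (m + 1), w p (m + 1) =
        w 0 (m + 1) * ∏ p ∈ Ico 1 (m + 1), w p (m + 1) := by
      rw [Finset.range_eq_Ico, Finset.prod_eq_prod_Ico_succ_bot (by omega)]
    rw [e1, ih, e2, e3, Finset.prod_range_succ (fun q => w 0 q) (m + 1)]
    ring

theorem prod_fin (n : ℕ) (f : ℕ → A) : ∏ q ∈ range n, f q = ∏ i : Fin n, f i :=
  Finset.prod_range f

theorem Lam_pow (n i : ℕ) (hi : i < n) (P : A) : Lam n (P * (x i - 1) ^ n) = 0 := by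
  have h := Lam_ST n P (x i - 1) (-1)
  rw [← h]
  have : ∏ j : Fin n, ((x i - 1) + (-1) * (x j - 1)) = 0 := by
    apply Finset.prod_eq_zero (Finset.mem_univ (⟨i, hi⟩ : Fin n))
    ring
  rw [this, mul_zero, map_zero]

/-- geometric sum -/
noncomputable def G (N i : ℕ) : A := ∑ j ∈ range N, (-(x i * (x i - 1))) ^ j

theorem G_mul (N i : ℕ) : G N i * w i i = 1 - (-(x i)) ^ N * (x i - 1) ^ N := by
  have h := geom_sum_mul_neg (-(x i * (x i - 1))) N
  have e : w i i = 1 - (-(x i * (x i - 1))) := by rw [w]; ring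
  rw [e]
  change G N i * _ = _ at h
  rw [h, ← mul_pow]
  congr 2
  ring

theorem Lam_G (n i : ℕ) (hi : i < n) (P : A) : Lam n P = Lam n (P * (G n i * w i i)) := by
  rw [G_mul]
  have : P * (1 - (-(x i)) ^ n * (x i - 1) ^ n) = P - (P * (-(x i)) ^ n) * (x i - 1) ^ n := by ring
  rw [this, map_sub, Lam_pow n i hi, sub_zero]

theorem a_left (m : ℕ) (k : ℕ → ℤ) :
    a (m + 1) k = Lam (m + 1) (X k * G (m + 1) 0 * W1 (m + 1)) := by
  rw [a, Lam_G (m + 1) 0 (by omega)]
  have e : X k * W (m + 1) * (G (m + 1) 0 * w 0 0) =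
      (X k * G (m + 1) 0) * (W (m + 1) * w 0 0) := by ring
  rw [e, W_W1, ← mul_assoc, prod_fin]
  have e2 : ∏ i : Fin (m + 1), w 0 i = ∏ i : Fin (m + 1), (1 + x 0 * (x i - 1)) := by
    apply Finset.prod_congr rfl; intro i _; rw [w]; ring
  rw [e2, Lam_ST, one_pow, mul_one]

theorem a_right (m : ℕ) (k : ℕ → ℤ) :
    a (m + 1) k = Lam (m + 1) (X k * G (m + 1) m * W m * x m ^ (m + 1)) := by
  rw [a, Lam_G (m + 1) m (by omega)]
  have e : X k * W (m + 1) * (G (m + 1) m * w m m) =
      (X k * G (m + 1) m * W m) * (∏ p ∈ range (m + 1), w p m) := by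
    rw [W_succ, Finset.prod_range_succ]; ring
  rw [e, prod_fin]
  have e2 : ∏ i : Fin (m + 1), w i m = ∏ i : Fin (m + 1), (x m + (x m - 1) * (x i - 1)) := by
    apply Finset.prod_congr rfl; intro i _; rw [w]; ring
  rw [e2, Lam_ST]

/-- the rotated tuple -/
def rotk (m : ℕ) (k : ℕ → ℤ) : ℕ → ℤ := fun i =>
  if i < m then k (i + 1) else if i = m then k 0 - (m + 1) else k i

/-- index rotation -/
def cyc (m : ℕ) : ℕ → ℕ := fun i => if i = 0 then m else if i ≤ m then i - 1 else i

theorem cyc_fin (m : ℕ) (i : Fin (m + 1)) : cyc m i = ((finRotate (m + 1)).symm i : Fin (m + 1)) := by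
  obtain ⟨j, rfl⟩ := (finRotate (m + 1)).surjective i
  rw [Equiv.symm_apply_apply]
  by_cases hj : j = Fin.last m
  · subst hj
    rw [finRotate_last]; simp [cyc]
  · rw [coe_finRotate_of_ne_last hj]
    have h1 : (j : ℕ) < m := Fin.val_lt_last hj
    clear hj
    unfold cyc
    rw [if_neg (Nat.succ_ne_zero _), if_pos (Nat.succ_le_of_lt h1)]
    exact Nat.add_sub_cancel _ _

theorem rot (m : ℕ) (k : ℕ → ℤ) : a (m + 1) k = (-1) ^ m * a (m + 1) (rotk m k) := by
  rw [a_left, a_right]
  have hl := Lam_perm (m + 1) (cyc m) (finRotate (m + 1)).symm (cyc_fin m)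
    (X (rotk m k) * G (m + 1) m * W m * x m ^ (m + 1))
  have hs : ((Equiv.Perm.sign (finRotate (m + 1)).symm : ℤˣ) : ℤ) = (-1) ^ m := by
    rw [Equiv.Perm.sign_symm, sign_finRotate]; simp
  rw [hs] at hl
  rw [← hl]
  congr 1
  have hx : ∀ p, p < m → sub (cyc m) (x p) = x (p + 1) := by
    intro p hp
    apply sub_x
    intro j
    simp only [cyc]
    split_ifs <;> omega
  have hxm : sub (cyc m) (x m) = x 0 := by
    apply sub_x
    intro j
    simp only [cyc]
    split_ifs <;> omega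
  have hk : sub (cyc m) (X (rotk m k) * x m ^ (m + 1)) = X k := by
    rw [← xz_nat, xz, X_mul, sub_X]
    congr 1
    funext j
    simp only [Function.comp, Pi.add_apply, rotk, cyc, Pi.single_apply]
    rcases Nat.eq_zero_or_pos j with rfl | hj
    · simp
    · have h0 : j ≠ 0 := by omega
      simp only [h0, if_false]
      by_cases hjm : j ≤ m
      · have h1 : j - 1 < m := by omega
        have h2 : j - 1 ≠ m := by omega
        have h3 : j - 1 + 1 = j := by omega
        simp [hjm, h1, h2, h3]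
      · have h1 : ¬ j < m := by omega
        have h2 : j ≠ m := by omega
        simp [hjm, h1, h2]
  have hG : sub (cyc m) (G (m + 1) m) = G (m + 1) 0 := by
    simp [G, hxm]
  have hW : sub (cyc m) (W m) = W1 (m + 1) := by
    rw [W, map_prod, W1, Finset.prod_range_succ']
    simp only [zero_le, Ico_eq_empty_of_le, prod_empty, mul_one]
    apply Finset.prod_congr rfl
    intro q hq
    rw [mem_range] at hq
    rw [map_prod, Finset.prod_Ico_eq_prod_range]
    apply Finset.prod_congr (by simp)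
    intro p hp
    rw [mem_range] at hp
    rw [sub_w, hx p (by omega), hx q hq, w, add_comm 1 p]
  have e : X (rotk m k) * G (m + 1) m * W m * x m ^ (m + 1) =
      (X (rotk m k) * x m ^ (m + 1)) * G (m + 1) m * W m := by ring
  rw [e, map_mul, map_mul, hk, hG, hW]

end Pool.Agent.X291.MT
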