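import Pool.Agent.X144.MT.Final

/-! Arrays with prescribed starting states of the rows; the transposition argument. -/

namespace Pool.Agent.X291.MT

open Pool.Agent.X144.MT

/-- Arrays of `m` rows of length `n` whose `i`-th row starts in state `δ i`. -/
def ArrD (δ : ℕ → ℤ) {m n : ℕ} (w : Fin n → Bool) (M : Fin m → Fin n → ℤ) : Prop :=
  (∀ i : Fin m, okd (δ i) (M i)) ∧
    (∀ j k, part (fun i => M i j) k = 0 ∨ part (fun i => M i j) k = 1) ∧
    ∀ j, ∑ i, M i j = bz (w j)

open Classical in
/-- The finite set of these arrays. -/
noncomputable def AFD (δ : ℕ → ℤ) : (m : ℕ) → {n : ℕ} → (Fin n → Bool) → Finset (Fin m → Fin n → ℤ)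
  | 0, _, w => if (∀ j, w j = false) then {Fin.elim0} else ∅
  | m + 1, n, w => (Finset.univ.filter
      (fun w' : Fin n → Bool => okd (δ m) (fun t => bz (w t) - bz (w' t)))).biUnion
      (fun w' => (AFD δ m w').image
        (fun M => (Fin.snoc M (fun t => bz (w t) - bz (w' t)) : Fin (m + 1) → Fin n → ℤ)))

theorem mem_AFD (δ : ℕ → ℤ) : ∀ (m : ℕ) {n : ℕ} (w : Fin n → Bool) (M : Fin m → Fin n → ℤ),
    M ∈ AFD δ m w ↔ ArrD δ w M := by
  intro m
  induction m with
  | zero =>
    intro n w M
    have hM : M = Fin.elim0 := by funext i; exact i.elim0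
    subst hM
    simp only [AFD]
    split_ifs with h
    · simp only [Finset.mem_singleton, true_iff]
      refine ⟨fun i => i.elim0, fun j k => by left; simp [part], fun j => by simp [h j, bz]⟩
    · simp only [Finset.notMem_empty, false_iff]
      rintro ⟨_, _, h3⟩
      apply h
      intro j
      have := h3 j
      simp only [Finset.univ_eq_empty, Finset.sum_empty] at this
      cases hb : w j with
      | false => rfl
      | true => rw [hb] at this; simp [bz] at this
  | succ m ih =>
    intro n w M
    simp only [AFD, Finset.mem_biUnion, Finset.mem_filter, Finset.mem_univ, true_and,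
      Finset.mem_image]
    constructor
    · rintro ⟨w', hw', M', hM', rfl⟩
      rw [ih] at hM'
      obtain ⟨h1, h2, h3⟩ := hM'
      have hsum : ∀ j, ∑ i, (Fin.snoc M' (fun t => bz (w t) - bz (w' t)) :
          Fin (m + 1) → Fin n → ℤ) i j = bz (w j) := by
        intro j
        rw [Fin.sum_univ_castSucc]
        simp only [Fin.snoc_castSucc, Fin.snoc_last]
        rw [h3 j]; ring
      refine ⟨fun i => ?_, fun j k => ?_, hsum⟩
      · refine Fin.lastCases ?_ (fun i => ?_) i
        · rw [Fin.snoc_last]
          exact hw'
        · rw [Fin.snoc_castSucc]; exact h1 i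
      · rw [part_snoc]
        split_ifs with hk
        · simp only [Fin.snoc_castSucc]
          exact h2 j k
        · rw [hsum]; exact bz_01 _
    · rintro ⟨h1, h2, h3⟩
      have hc : ∀ j, ∃ b : Bool, ∑ i : Fin m, M i.castSucc j = bz b := by
        intro j
        have := h2 j m
        rw [part_snoc, if_pos le_rfl, part_big _ m le_rfl] at this
        rcases this with h | h
        · exact ⟨false, by rw [h]; simp [bz]⟩
        · exact ⟨true, by rw [h]; simp [bz]⟩
      choose w' hw' using hc
      have hlast : ∀ j, M (Fin.last m) j = bz (w j) - bz (w' j) := by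
        intro j
        have := h3 j
        rw [Fin.sum_univ_castSucc, hw'] at this
        linarith
      refine ⟨w', ?_, fun i => M i.castSucc, ?_, ?_⟩
      · have := h1 (Fin.last m)
        rwa [show M (Fin.last m) = fun t => bz (w t) - bz (w' t) from funext hlast] at this
      · rw [ih]
        refine ⟨fun i => h1 i.castSucc, fun j k => ?_, hw'⟩
        by_cases hk : k ≤ m
        · have := h2 j k
          rw [part_snoc, if_pos hk] at this
          exact this
        · rw [part_big _ k (by omega), hw']; exact bz_01 _
      · funext i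
        refine Fin.lastCases ?_ (fun i => ?_) i
        · rw [Fin.snoc_last]; exact (funext hlast).symm
        · rw [Fin.snoc_castSucc]

/-- the counting functions on lists -/
noncomputable def cf (δ : ℕ → ℤ) (p : ℤ) : ℕ → List ℤ → ℤ
  | 0 => fun l => if l = [] then 1 else 0
  | m + 1 => if δ m = 0 then SA (cf δ p m) else T (cf δ p m) p

theorem card_AFD (δ : ℕ → ℤ) (hδ : ∀ i, δ i = 0 ∨ δ i = 1) (p : ℤ) :
    ∀ (m : ℕ) {n : ℕ} (w : Fin n → Bool), ((AFD δ m w).card : ℤ) = cf δ p m (pos p w) := by
  intro m
  induction m with
  | zero =>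
    intro n w
    have h := card_AF 0 w p
    simp only [AF, al] at h
    simp only [AFD, cf]
    convert h
  | succ m ih =>
    intro n w
    rw [AFD, Finset.card_biUnion]
    · have h1 : cf δ p (m + 1) (pos p w) = U (δ m) (cf δ p m) p w := by
        simp only [cf]
        rcases hδ m with h | h
        · rw [if_pos h, h]; exact (U_eq (cf δ p m) p w).2.symm
        · rw [if_neg (by rw [h]; norm_num), h]; exact (U_eq (cf δ p m) p w).1.symm
      rw [h1, U, ← Finset.sum_filter]
      push_cast
      apply Finset.sum_congr rfl
      intro w' _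
      rw [Finset.card_image_of_injective, ih w']
      intro M M' hMM
      funext i
      have := congrFun hMM i.castSucc
      simpa using this
    · intro w1 _ w2 _ h12
      rw [Function.onFun, Finset.disjoint_left]
      intro M hM hM'
      rw [Finset.mem_image] at hM hM'
      obtain ⟨M1, _, rfl⟩ := hM
      obtain ⟨M2, _, h⟩ := hM'
      apply h12
      funext t
      have := congrFun (congrFun h (Fin.last m)) t
      simp only [Fin.snoc_last] at this
      apply bz_inj
      linarith

/-- all entries true but one -/
def wc {n : ℕ} (c : ℕ) : Fin n → Bool := fun t => decide ((t : ℕ) ≠ c)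

/-- state function: one at `c` -/
def dl (c : ℕ) : ℕ → ℤ := fun i => if i = c then 1 else 0

theorem part_rev' {n : ℕ} (v : Fin n → ℤ) (k : ℕ) :
    part (fun t => v t.rev) k = ∑ t, v t - part v (n - k) := part_rev v k

theorem sum_rev {n : ℕ} (v : Fin n → ℤ) : ∑ t : Fin n, v t.rev = ∑ t, v t := by
  have := Equiv.sum_comp (Fin.revPerm (n := n)) v
  simpa using this

/-- Transposition: `n` rows of length `n+1` with column sums `1` except in column `c`, and
`n+1` rows of length `n` with the `c`-th row starting in state `1`. -/
theorem card_transpose (n c : ℕ) (hc : c < n + 1) :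
    (AF n (wc c : Fin (n + 1) → Bool)).card
      = (AFD (dl c) (n + 1) (fun _ : Fin n => true)).card := by
  refine Finset.card_nbij' (fun M => fun r t => M t.rev r) (fun M => fun t r => M r t.rev)
    ?_ ?_ ?_ ?_
  · intro M hM
    rw [Finset.mem_coe, mem_AF] at hM
    rw [Finset.mem_coe, mem_AFD]
    obtain ⟨h1, h2, h3⟩ := hM
    refine ⟨fun r => ?_, fun j k => ?_, fun j => ?_⟩
    · by_cases hr : (r : ℕ) = c
      · have hs : ∑ t, M t r = 0 := by
          rw [h3]; simp [wc, hr, bz]
        refine ⟨fun k => ?_, ?_⟩
        · rw [part_rev' (fun t => M t r) k, hs]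
          simp only [dl, hr, if_true]
          rcases h2 r (n - k) with h | h
          · right; rw [h]; ring
          · left; rw [h]; ring
        · rw [sum_rev (fun t => M t r), hs]
          simp [dl, hr]
      · have hs : ∑ t, M t r = 1 := by
          rw [h3]; simp [wc, hr, bz]
        refine ⟨fun k => ?_, ?_⟩
        · rw [part_rev' (fun t => M t r) k, hs]
          simp only [dl, hr, if_false]
          rcases h2 r (n - k) with h | h
          · right; rw [h]; ring
          · left; rw [h]; ring
        · rw [sum_rev (fun t => M t r), hs]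
          simp [dl, hr]
    · exact (h1 j.rev).1 k
    · have := (h1 j.rev).2
      simpa [bz] using this
  · intro M hM
    rw [Finset.mem_coe, mem_AFD] at hM
    rw [Finset.mem_coe, mem_AF]
    obtain ⟨h1, h2, h3⟩ := hM
    refine ⟨fun t => ⟨fun k => h2 t.rev k, ?_⟩, fun r k => ?_, fun r => ?_⟩
    · have := h3 t.rev
      simpa [bz] using this
    · rw [part_rev' (fun t => M r t) k]
      have h4 := (h1 r).1 (n - k)
      have h5 := (h1 r).2
      have h6 : ∑ t, M r t - part (fun t => M r t) (n - k)
          = 1 - (dl c r + part (fun t => M r t) (n - k)) := by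
        linarith
      rw [h6]
      rcases h4 with h | h
      · right; rw [h]; ring
      · left; rw [h]; ring
    · rw [sum_rev (fun t => M r t)]
      have h5 := (h1 r).2
      by_cases hr : (r : ℕ) = c
      · simp only [dl, hr, if_true] at h5
        simp [wc, hr, bz]
        linarith
      · simp only [dl, hr, if_false] at h5
        simp [wc, hr, bz]
        linarith
  · intro M _; funext i j; simp
  · intro M _; funext i j; simp

theorem cf_low (c : ℕ) (p : ℤ) : ∀ m, m ≤ c → cf (dl c) p m = al m := by
  intro m
  induction m with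
  | zero => intro _; rfl
  | succ m ih =>
    intro h
    simp only [cf, al]
    rw [if_pos (by simp only [dl]; rw [if_neg (by omega)]), ih (by omega)]

theorem cf_mid (c : ℕ) (p : ℤ) : cf (dl c) p (c + 1) = fun s => al (c + 1) (p :: s) := by
  simp only [cf]
  rw [if_neg (by simp [dl]), cf_low c p c le_rfl]
  rfl

theorem cf_high (c : ℕ) (p : ℤ) : ∀ j, cf (dl c) p (c + 1 + j) =
    SA^[j] (fun s => al (c + 1) (p :: s)) := by
  intro j
  induction j with
  | zero => rw [add_zero, cf_mid]; rfl
  | succ j ih =>
    rw [Function.iterate_succ_apply', ← ih, ← add_assoc]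
    simp only [cf]
    rw [if_pos (by simp only [dl]; rw [if_neg (by omega)])]

/-- The refined numbers by rows and by columns. -/
theorem row_col (n c : ℕ) (hc : c ≤ n) :
    al n (pos 1 (wc c : Fin (n + 1) → Bool)) =
      SA^[n - c] (fun s => al (c + 1) (1 :: s)) (iv 1 n) := by
  have h1 := card_AF n (wc c : Fin (n + 1) → Bool) 1
  have h2 := card_AFD (dl c) (by intro i; simp only [dl]; split_ifs <;> simp) 1 (n + 1)
    (fun _ : Fin n => true)
  rw [← h1, card_transpose n c (by omega), h2, pos_true]
  have h3 := cf_high c 1 (n - c)
  rw [show c + 1 + (n - c) = n + 1 by omega] at h3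
  rw [h3]

end Pool.Agent.X291.MT
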